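import Mathlib
import Pool.Agent.H590R2.RS.All

/-!
# Random signings (random 2-lifts) of Ramanujan graphs

Trace method. New ingredient: every closed walk that uses each edge an even number of times is cut
into closed walks that stay in small balls (modules `Pool.Agent.H590R2.RS.*`).
-/

namespace Pool.Agent.Results.MP_df0aa7_co.RandomSigning

open Pool.Agent.H590R2.RS

/-- the signed adjacency matrix of `G` in which the edge `e` gets the sign `+1` if `σ e = true` and
the sign `-1` if `σ e = false` -/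
noncomputable def signed {n : ℕ} (G : SimpleGraph (Fin n)) (σ : G.edgeSet → Bool) :
    Matrix (Fin n) (Fin n) ℝ :=
  open Classical in
  Matrix.of fun u v => if h : G.Adj u v then (if σ ⟨s(u, v), h⟩ then 1 else -1) else 0

/-- connected `d`-regular graph all of whose eigenvalues other than `d` and `-d` have absolute
value at most `2 √(d-1)` -/
def IsRamanujan {n : ℕ} (G : SimpleGraph (Fin n)) (d : ℕ) : Prop :=
  open Classical in
  G.Connected ∧ G.IsRegularOfDegree d ∧
    ∀ μ ∈ spectrum ℝ (G.adjMatrix ℝ), |μ| ≠ d → |μ| ≤ 2 * √((d : ℝ) - 1)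

/-- the probability that all eigenvalues of a uniformly random signing of `G` have absolute value
less than `t` -/
noncomputable def prob {n : ℕ} (G : SimpleGraph (Fin n)) (t : ℝ) : ℝ :=
  ({σ : G.edgeSet → Bool | ∀ μ ∈ spectrum ℝ (signed G σ), |μ| < t}.ncard : ℝ) /
    (Nat.card (G.edgeSet → Bool) : ℝ)

theorem signed_eq {n : ℕ} (G : SimpleGraph (Fin n)) (σ : G.edgeSet → Bool) :
    signed G σ = SM G σ := by
  ext u v
  simp only [signed, SM, sgn, Matrix.of_apply, SimpleGraph.mem_edgeSet]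
  by_cases h : G.Adj u v
  · simp [h]
  · simp [h]

theorem prob_eq {n : ℕ} (G : SimpleGraph (Fin n)) (t : ℝ) :
    prob G t = (open Classical in ((Finset.univ.filter fun σ : G.edgeSet → Bool =>
      ∀ μ ∈ spectrum ℝ (SM G σ), |μ| < t).card : ℝ) /
    (Fintype.card (G.edgeSet → Bool) : ℝ)) := by
  classical
  unfold prob
  rw [Nat.card_eq_fintype_card]
  congr 2
  rw [← Set.ncard_coe_finset]
  congr 1
  ext σ
  simp only [Set.mem_ofPred_eq, Finset.coe_filter, Finset.mem_univ, true_and]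
  rw [signed_eq]

theorem prob_pos_of {n : ℕ} (G : SimpleGraph (Fin n)) (t : ℝ) (σ : G.edgeSet → Bool)
    (h : ∀ μ ∈ spectrum ℝ (signed G σ), |μ| < t) : 0 < prob G t := by
  classical
  unfold prob
  apply div_pos
  · have : 0 < {σ : G.edgeSet → Bool | ∀ μ ∈ spectrum ℝ (signed G σ), |μ| < t}.ncard := by
      rw [Set.ncard_pos (Set.toFinite _)]
      exact ⟨σ, h⟩
    exact_mod_cast this
  · have : 0 < Nat.card (G.edgeSet → Bool) := Nat.card_pos
    exact_mod_cast this

theorem first : ∀ d : ℕ, 3 ≤ d → ∀ ε : ℝ, 0 < ε → ∃ n0 : ℕ, ∀ n : ℕ, n0 ≤ n →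
    ∀ G : SimpleGraph (Fin n), IsRamanujan G d →
    1 - ε ≤ prob G (2 * √((d : ℝ) - 1) + ε) := by
  intro d hd ε hε
  obtain ⟨n0, h⟩ := tMAIN d hd ε hε
  refine ⟨n0, fun n hn G hG => ?_⟩
  rw [prob_eq]
  have hR : Ramanujan G d := by
    unfold Ramanujan
    unfold IsRamanujan at hG
    convert hG using 3
  exact h (Fin n) G (by simpa using hn) hR

theorem spectrum_finite {n : ℕ} (M : Matrix (Fin n) (Fin n) ℝ) : (spectrum ℝ M).Finite := by
  have h := Module.End.finite_hasEigenvalue (Matrix.toLin' M)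
  refine h.subset ?_
  intro μ hμ
  rw [← Matrix.spectrum_toLin'] at hμ
  exact Module.End.hasEigenvalue_iff_mem_spectrum.mpr hμ

theorem result :
    (∀ d : ℕ, 3 ≤ d → ∀ ε : ℝ, 0 < ε → ∃ n0 : ℕ, ∀ n : ℕ, n0 ≤ n →
      ∀ G : SimpleGraph (Fin n), IsRamanujan G d → 1 - ε ≤ prob G (2 * √((d : ℝ) - 1) + ε)) ∧
    ((∀ d : ℕ, 3 ≤ d → ∀ ε : ℝ, 0 < ε → ∃ c : ℝ, 0 < c ∧ ∀ n : ℕ,
      ∀ G : SimpleGraph (Fin n), IsRamanujan G d → c ≤ prob G (2 * √((d : ℝ) - 1) + ε)) ↔
    (∀ d : ℕ, 3 ≤ d → ∀ n : ℕ, ∀ G : SimpleGraph (Fin n), IsRamanujan G d →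
      ∃ σ : G.edgeSet → Bool, ∀ μ ∈ spectrum ℝ (signed G σ), |μ| ≤ 2 * √((d : ℝ) - 1))) := by
  refine ⟨first, ?_, ?_⟩
  · intro h d hd n G hG
    by_contra hcon
    push Not at hcon
    -- for every signing an eigenvalue with |μ| > b
    set b := 2 * √((d : ℝ) - 1) with hb
    choose f hf1 hf2 using hcon
    -- minimum over σ of |f σ| - b is positive
    obtain ⟨σ0, hσ0⟩ := Finite.exists_min (fun σ : G.edgeSet → Bool => |f σ|)
    have hε : 0 < |f σ0| - b := by linarith [hf2 σ0]
    obtain ⟨c, hc, hc2⟩ := h d hd _ hε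
    have h1 := hc2 n G hG
    have h2 : prob G (b + (|f σ0| - b)) = 0 := by
      unfold prob
      have : {σ : G.edgeSet → Bool | ∀ μ ∈ spectrum ℝ (signed G σ), |μ| < b + (|f σ0| - b)} = ∅ := by
        rw [Set.eq_empty_iff_forall_notMem]
        intro σ hσ
        have := hσ (f σ) (hf1 σ)
        have := hσ0 σ
        linarith
      rw [this]
      simp
    linarith
  · intro h d hd ε hε
    obtain ⟨n0, hn0⟩ := first d hd (min ε (1 / 2)) (by positivity)
    -- monotonicity of prob
    have hmono : ∀ (n : ℕ) (G : SimpleGraph (Fin n)) (s t : ℝ), s ≤ t → prob G s ≤ prob G t := by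
      intro n G s t hst
      unfold prob
      apply div_le_div_of_nonneg_right _ (by positivity)
      have : {σ : G.edgeSet → Bool | ∀ μ ∈ spectrum ℝ (signed G σ), |μ| < s}.ncard ≤
          {σ : G.edgeSet → Bool | ∀ μ ∈ spectrum ℝ (signed G σ), |μ| < t}.ncard := by
        apply Set.ncard_le_ncard _ (Set.toFinite _)
        intro σ hσ μ hμ
        exact lt_of_lt_of_le (hσ μ hμ) hst
      exact_mod_cast this
    -- minimum over all graphs with fewer than n0 vertices
    have hsmall : ∃ c : ℝ, 0 < c ∧ ∀ n : ℕ, n < n0 → ∀ G : SimpleGraph (Fin n), IsRamanujan G d →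
        c ≤ prob G (2 * √((d : ℝ) - 1) + ε) := by
      have key : ∀ m : ℕ, ∃ c : ℝ, 0 < c ∧ ∀ n : ℕ, n < m → ∀ G : SimpleGraph (Fin n),
          IsRamanujan G d → c ≤ prob G (2 * √((d : ℝ) - 1) + ε) := by
        intro m
        induction m with
        | zero => exact ⟨1, one_pos, fun n hn => absurd hn (Nat.not_lt_zero n)⟩
        | succ m ih =>
          obtain ⟨c, hc, hc2⟩ := ih
          have h3 : ∃ c' : ℝ, 0 < c' ∧ ∀ G : SimpleGraph (Fin m), IsRamanujan G d →
              c' ≤ prob G (2 * √((d : ℝ) - 1) + ε) := by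
            by_cases hne : ∃ G : SimpleGraph (Fin m), IsRamanujan G d
            · have : Nonempty {G : SimpleGraph (Fin m) // IsRamanujan G d} :=
                ⟨⟨hne.choose, hne.choose_spec⟩⟩
              obtain ⟨G0, hG0⟩ := Finite.exists_min
                (fun G : {G : SimpleGraph (Fin m) // IsRamanujan G d} =>
                  prob G.1 (2 * √((d : ℝ) - 1) + ε))
              refine ⟨prob G0.1 (2 * √((d : ℝ) - 1) + ε), ?_, fun G hG => hG0 ⟨G, hG⟩⟩
              obtain ⟨σ, hσ⟩ := h d hd m G0.1 G0.2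
              exact prob_pos_of _ _ σ (fun μ hμ => by linarith [hσ μ hμ])
            · exact ⟨1, one_pos, fun G hG => absurd ⟨G, hG⟩ hne⟩
          obtain ⟨c', hc', hc2'⟩ := h3
          refine ⟨min c c', lt_min hc hc', fun n hn G hG => ?_⟩
          rcases Nat.lt_succ_iff_lt_or_eq.mp hn with h4 | h4
          · exact (min_le_left _ _).trans (hc2 n h4 G hG)
          · subst h4
            exact (min_le_right _ _).trans (hc2' G hG)
      exact key n0
    obtain ⟨c, hc, hc2⟩ := hsmall
    refine ⟨min c (1 / 2), by positivity, fun n G hG => ?_⟩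
    rcases lt_or_ge n n0 with h5 | h5
    · exact (min_le_left _ _).trans (hc2 n h5 G hG)
    · have h6 := hn0 n h5 G hG
      have h7 : prob G (2 * √((d : ℝ) - 1) + min ε (1 / 2)) ≤ prob G (2 * √((d : ℝ) - 1) + ε) :=
        hmono n G _ _ (by linarith [min_le_left ε (1 / 2)])
      have h8 : (1 : ℝ) / 2 ≤ 1 - min ε (1 / 2) := by linarith [min_le_right ε (1 / 2 : ℝ)]
      exact (min_le_right _ _).trans (h8.trans (h6.trans h7))

end Pool.Agent.Results.MP_df0aa7_co.RandomSigning
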